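import Mathlib

namespace Pool.Agent.H.MP_49e939_nt

open Finset Nat

lemma dv (q c a : ℕ) (hq : 0 < q) : c * a / q = c * (a / q) + c * (a % q) / q := by
  conv_lhs => rw [← Nat.div_add_mod a q, mul_add, mul_left_comm, Nat.mul_add_div hq]

lemma d6 (q a c d : ℕ) (h : c * d = 6) (hc : 0 < c) : d * a / q = 6 * a / q / c := by
  rw [Nat.div_div_eq_div_mul, ← h, mul_assoc, mul_comm q c, Nat.mul_div_mul_left _ _ hc]

lemma small (q a b e : ℕ) (hq : 2 ≤ q) (h3 : q ≠ 3) (ha : a < q) (hb : b < q)
    (he : e = 0 ∨ (e = 1 ∧ 2 * (a + b) % q = 1)) :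
    e + 3 * (a + b) / q + (3 * a / q + 2 * a / q) + (3 * b / q + 2 * b / q) ≤
      6 * a / q + 6 * b / q + 1 * (a + b) / q + 2 * (a + b) / q := by
  rw [d6 q a 2 3 rfl (by norm_num), d6 q a 3 2 rfl (by norm_num), d6 q b 2 3 rfl (by norm_num),
    d6 q b 3 2 rfl (by norm_num), d6 q (a + b) 2 3 rfl (by norm_num),
    d6 q (a + b) 6 1 rfl (by norm_num)]
  have s1 := Nat.div_add_mod (2 * (a + b)) q
  rw [d6 q (a + b) 3 2 rfl (by norm_num)] at s1 ⊢
  have u1 := Nat.div_add_mod (6 * a) q
  have u2 := Nat.mod_lt (6 * a) (show 0 < q by omega)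
  have v1 := Nat.div_add_mod (6 * b) q
  have v2 := Nat.mod_lt (6 * b) (show 0 < q by omega)
  have w1 := Nat.div_add_mod (6 * (a + b)) q
  have w2 := Nat.mod_lt (6 * (a + b)) (show 0 < q by omega)
  have u3 : 6 * a / q < 6 := Nat.div_lt_of_lt_mul (by omega)
  have v3 : 6 * b / q < 6 := Nat.div_lt_of_lt_mul (by omega)
  have w3 : 6 * (a + b) / q < 12 := Nat.div_lt_of_lt_mul (by omega)
  generalize 6 * a / q = u at *
  generalize 6 * b / q = v at *
  generalize 6 * (a + b) / q = w at *
  generalize 6 * a % q = u' at *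
  generalize 6 * b % q = v' at *
  generalize 6 * (a + b) % q = w' at *
  generalize 2 * (a + b) % q = s' at *
  interval_cases u <;> interval_cases v <;> interval_cases w <;> omega

lemma floor_ineq (q k l : ℕ) (hq : 2 ≤ q) (h3 : q ≠ 3) (hn : 1 ≤ k + l) :
    (if q ∣ 2 * (k + l) - 1 then 1 else 0) + 3 * (k + l) / q +
      (3 * k / q + k / q + 2 * k / q) + (3 * l / q + l / q + 2 * l / q) ≤
      6 * k / q + 6 * l / q + (k + l) / q + 2 * (k + l) / q := by
  have hq0 : 0 < q := by omega
  have key : ∀ c, c * (k + l) / q = c * (k / q) + c * (l / q) + c * (k % q + l % q) / q := by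
    intro c
    conv_lhs => rw [← Nat.div_add_mod k q, ← Nat.div_add_mod l q]
    rw [show c * (q * (k / q) + k % q + (q * (l / q) + l % q)) =
      q * (c * (k / q) + c * (l / q)) + c * (k % q + l % q) by ring, Nat.mul_add_div hq0]
  have := small q (k % q) (l % q) (if q ∣ 2 * (k + l) - 1 then 1 else 0) hq h3
    (Nat.mod_lt _ hq0) (Nat.mod_lt _ hq0) (by
      by_cases h : q ∣ 2 * (k + l) - 1
      · right
        refine ⟨by simp [h], ?_⟩
        have h1 : 1 ≡ 2 * (k + l) [MOD q] := (Nat.modEq_iff_dvd' (by omega)).2 h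
        have h2 : 2 * (k % q + l % q) ≡ 2 * (k + l) [MOD q] :=
          ((Nat.mod_modEq _ _).add (Nat.mod_modEq _ _)).mul_left 2
        have := h2.trans h1.symm
        rwa [Nat.ModEq, Nat.mod_eq_of_lt (show 1 < q by omega)] at this
      · left; simp [h])
  have k1 := key 1
  rw [one_mul] at k1
  rw [key 3, key 2, k1, dv q 3 k hq0, dv q 2 k hq0, dv q 6 k hq0, dv q 3 l hq0, dv q 2 l hq0,
    dv q 6 l hq0]
  omega

def t (k : ℕ) : ℕ := (6 * k).choose (3 * k) * (3 * k).choose k

lemma c3 (n : ℕ) : (3 * n).choose n * (n ! * (2 * n)!) = (3 * n)! := by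
  have := Nat.choose_mul_factorial_mul_factorial (show n ≤ 3 * n by omega)
  rwa [show 3 * n - n = 2 * n by omega, mul_assoc] at this

lemma t_mul (k : ℕ) : t k * ((3 * k)! * (k ! * (2 * k)!)) = (6 * k)! := by
  have := Nat.choose_mul_factorial_mul_factorial (show 3 * k ≤ 6 * k by omega)
  rw [show 6 * k - 3 * k = 3 * k by omega] at this
  rw [← this, t]
  conv_rhs => rw [← c3 k]
  rw [c3 k]; rw [← c3 k]; ring

lemma t_pos (k : ℕ) : 0 < t k :=
  Nat.mul_pos (Nat.choose_pos (by omega)) (Nat.choose_pos (by omega))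

lemma fac_mul3 (p a b c : ℕ) (ha : a ≠ 0) (hb : b ≠ 0) (hc : c ≠ 0) :
    (a * (b * c)).factorization p = a.factorization p + (b.factorization p + c.factorization p) := by
  rw [Nat.factorization_mul ha (mul_ne_zero hb hc), Nat.factorization_mul hb hc]; rfl

lemma v_t (p k : ℕ) : (t k).factorization p + ((3 * k)!.factorization p +
    ((k)!.factorization p + (2 * k)!.factorization p)) = (6 * k)!.factorization p := by
  rw [← t_mul, Nat.factorization_mul (t_pos k).ne' (by positivity),
    Finsupp.add_apply, fac_mul3 _ _ _ _ (by positivity) (by positivity) (by positivity)]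

lemma v_c (p n : ℕ) : ((3 * n).choose n).factorization p +
    ((n)!.factorization p + (2 * n)!.factorization p) = (3 * n)!.factorization p := by
  rw [← c3, fac_mul3 _ _ _ _ (Nat.choose_pos (by omega)).ne' (by positivity) (by positivity)]

lemma v_ch (p k l : ℕ) : ((k + l).choose k).factorization p +
    ((k)!.factorization p + (l)!.factorization p) = (k + l)!.factorization p := by
  rw [← Nat.add_choose_mul_factorial_mul_factorial k l, mul_assoc, Nat.choose_symm_add,
    fac_mul3 _ _ _ _ (Nat.choose_pos (by omega)).ne' (by positivity) (by positivity)]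

lemma term_dvd (k l : ℕ) (hn : 1 ≤ k + l) :
    (2 * (k + l) - 1) * (3 * (k + l)).choose (k + l) ∣ t k * t l := by
  have c0 : (3 * (k + l)).choose (k + l) ≠ 0 := (Nat.choose_pos (by omega)).ne'
  have m0 : 2 * (k + l) - 1 ≠ 0 := by omega
  rw [← Nat.factorization_prime_le_iff_dvd (mul_ne_zero m0 c0)
    (mul_ne_zero (t_pos k).ne' (t_pos l).ne')]
  intro p hp
  rw [Nat.factorization_mul m0 c0, Nat.factorization_mul (t_pos k).ne' (t_pos l).ne',
    Finsupp.add_apply, Finsupp.add_apply]
  have a1 := v_t p k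
  have a2 := v_t p l
  have a3 := v_c p (k + l)
  by_cases h3 : p = 3
  · subst h3
    have b1 := Nat.factorization_factorial_mul (n := k) hp
    have b2 := Nat.factorization_factorial_mul (n := l) hp
    have b3 := Nat.factorization_factorial_mul (n := k + l) hp
    have b4 := Nat.factorization_factorial_mul (n := 2 * k) hp
    have b5 := Nat.factorization_factorial_mul (n := 2 * l) hp
    rw [show 3 * (2 * k) = 6 * k by ring] at b4
    rw [show 3 * (2 * l) = 6 * l by ring] at b5
    have b6 := v_ch 3 k l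
    have b7 := v_ch 3 (k + l) (k + l)
    rw [← two_mul] at b7
    have b8 : 2 * (k + l) - 1 ∣ (2 * (k + l)).choose (k + l) := by
      obtain ⟨m, hm⟩ : ∃ m, k + l = m + 1 := ⟨k + l - 1, by omega⟩
      rw [hm, show 2 * (m + 1) - 1 = 2 * m + 1 by omega, ← Nat.centralBinom_eq_two_mul_choose]
      have := Nat.succ_mul_centralBinom_succ m
      have hc : Nat.Coprime (2 * m + 1) (m + 1) := by
        rw [show 2 * m + 1 = m + (m + 1) by ring, Nat.coprime_add_self_left]; simp
      exact hc.dvd_of_dvd_mul_left ⟨2 * centralBinom m, by rw [this]; ring⟩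
    have b9 := (Nat.factorization_prime_le_iff_dvd m0 (Nat.choose_pos (by omega)).ne').2 b8 3 hp
    omega
  · obtain ⟨b, hb⟩ : ∃ b, b = 6 * (k + l) + 1 := ⟨_, rfl⟩
    have lg : ∀ m, m ≤ 6 * (k + l) → log p m < b := fun m hm =>
      lt_of_le_of_lt ((Nat.log_le_self _ _).trans hm) (by omega)
    have f := fun m hm => Nat.factorization_factorial hp (lg m hm)
    rw [f (3 * k) (by omega), f k (by omega), f (2 * k) (by omega), f (6 * k) (by omega)] at a1
    rw [f (3 * l) (by omega), f l (by omega), f (2 * l) (by omega), f (6 * l) (by omega)] at a2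
    rw [f (k + l) (by omega), f (2 * (k + l)) (by omega), f (3 * (k + l)) (by omega)] at a3
    rw [Nat.factorization_eq_card_pow_dvd_of_lt hp (b := b) (by omega)
      (Nat.lt_pow_of_log_lt hp.one_lt (lg _ (by omega))), card_filter]
    have := sum_le_sum (s := Ico 1 b) fun i hi => floor_ineq (p ^ i) k l
      (Nat.one_lt_pow (by have := (mem_Ico.1 hi).1; omega) hp.one_lt)
      (fun h => h3 ((Nat.prime_three.pow_eq_iff.1 h).1)) hn
    simp only [sum_add_distrib] at this
    omega

/-- binary digit sum -/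
def s (n : ℕ) : ℕ := n - (n)!.factorization 2

lemma s_add (n : ℕ) : s n + (n)!.factorization 2 = n := by
  have := Nat.factorization_factorial_le_div_pred Nat.prime_two n
  simp only [s]; omega

lemma s_even (n : ℕ) : s (2 * n) = s n := by
  have := Nat.factorization_factorial_mul (n := n) Nat.prime_two
  have := s_add n; have := s_add (2 * n); omega

lemma s_odd (n : ℕ) : s (2 * n + 1) = s n + 1 := by
  have h1 := s_even n
  have h2 := s_add (2 * n); have h3 := s_add (2 * n + 1)
  rw [Nat.factorial_succ, Nat.factorization_mul (by omega) (by positivity), Finsupp.add_apply,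
    Nat.factorization_eq_zero_of_not_dvd (by omega)] at h3
  omega

lemma s_pos (n : ℕ) (h : 0 < n) : 0 < s n := by
  induction n using Nat.strong_induction_on with
  | _ n ih =>
    obtain ⟨m, rfl | rfl⟩ := Nat.even_or_odd' n
    · rw [s_even]; exact ih m (by omega) (by omega)
    · rw [s_odd]; omega

lemma s_zero : s 0 = 0 := by simp [s]

lemma s_one_iff (n : ℕ) : s n = 1 ↔ ∃ j, n = 2 ^ j := by
  constructor
  · induction n using Nat.strong_induction_on with
    | _ n ih =>
      obtain ⟨m, rfl | rfl⟩ := Nat.even_or_odd' n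
      · rw [s_even]; intro h
        have hm : m ≠ 0 := by rintro rfl; simp [s_zero] at h
        obtain ⟨j, rfl⟩ := ih m (by omega) h
        exact ⟨j + 1, by ring⟩
      · rw [s_odd]; intro h
        have : m = 0 := by by_contra h0; have := s_pos m (by omega); omega
        exact ⟨0, by simp [this]⟩
  · rintro ⟨j, rfl⟩
    induction j with
    | zero => have := s_odd 0; simpa [s_zero] using this
    | succ j ih => rw [pow_succ, mul_comm, s_even, ih]

lemma s_three (j : ℕ) : s (3 * 2 ^ j) = 2 := by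
  induction j with
  | zero =>
    have := s_odd 1; have := s_odd 0; have := s_zero
    simp_all
  | succ j ih => rw [show 3 * 2 ^ (j + 1) = 2 * (3 * 2 ^ j) by ring, s_even, ih]

lemma s_three_ge (n : ℕ) (h : 0 < n) : 2 ≤ s (3 * n) := by
  have h1 := s_pos (3 * n) (by omega)
  have h2 : s (3 * n) ≠ 1 := by
    rw [Ne, s_one_iff]; rintro ⟨j, hj⟩
    have : 3 ∣ 2 ^ j := ⟨n, hj.symm⟩
    have := Nat.prime_three.dvd_of_dvd_pow this
    omega
  omega

lemma v2_t (k : ℕ) : (t k).factorization 2 = 2 * s k := by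
  have a := v_t 2 k
  have b1 := Nat.factorization_factorial_mul (n := 3 * k) Nat.prime_two
  have b2 := Nat.factorization_factorial_mul (n := k) Nat.prime_two
  rw [show 2 * (3 * k) = 6 * k by ring] at b1
  have := s_add k
  omega

lemma v2_ch (k l : ℕ) : ((k + l).choose k).factorization 2 + s (k + l) = s k + s l := by
  have := v_ch 2 k l; have := s_add k; have := s_add l; have := s_add (k + l); omega

lemma v2_c (n : ℕ) : ((3 * n).choose n).factorization 2 + s (3 * n) = 2 * s n := by
  have := v_c 2 n; have := s_add n; have := s_add (2 * n); have := s_add (3 * n)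
  have := s_even n; omega

lemma odd_part (m : ℕ) (hm : m ≠ 0) : ∃ u, Odd u ∧ m = 2 ^ m.factorization 2 * u :=
  ⟨ordCompl[2] m, Nat.odd_iff.2 (by
    have := Nat.not_dvd_ordCompl Nat.prime_two hm; omega),
    (Nat.ordProj_mul_ordCompl_eq_self m 2).symm⟩

def w (n k : ℕ) : ℕ := t k * t (n - k) / 4 ^ s n

lemma w_spec (k l : ℕ) : ∃ u c, Odd u ∧ Odd c ∧ ∃ e, (k + l).choose k = 2 ^ e * c ∧
    w (k + l) k = 4 ^ e * u ∧ t k * t l = 4 ^ s (k + l) * w (k + l) k := by
  obtain ⟨u1, o1, h1⟩ := odd_part _ (t_pos k).ne'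
  obtain ⟨u2, o2, h2⟩ := odd_part _ (t_pos l).ne'
  obtain ⟨c, o3, h3⟩ := odd_part _ (Nat.choose_pos (show k ≤ k + l by omega)).ne'
  have h4 := v2_ch k l
  rw [v2_t] at h1 h2
  have h5 : t k * t l = 4 ^ s (k + l) * (4 ^ ((k + l).choose k).factorization 2 * (u1 * u2)) := by
    rw [h1, h2, ← mul_assoc (4 ^ _), ← pow_add, add_comm (s _), h4, pow_add, pow_mul, pow_mul]
    norm_num; ring
  have h6 : w (k + l) k = 4 ^ ((k + l).choose k).factorization 2 * (u1 * u2) := by
    rw [w, add_tsub_cancel_left, h5, Nat.mul_div_cancel_left _ (by positivity)]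
  exact ⟨u1 * u2, c, o1.mul o2, o3, _, h3, h6, by rw [h6, h5]⟩

lemma W_mod (n : ℕ) (hn : 0 < n) :
    ((∑ k ∈ range (n + 1), w n k : ℕ) : ZMod 4) = ((2 * n).choose n : ℕ) := by
  rw [← Nat.sum_range_choose_sq, ← sub_eq_zero]
  push_cast
  rw [← sum_sub_distrib]
  have key : ∀ k ∈ range (n + 1), 2 * ((w n k : ZMod 4) - (n.choose k : ZMod 4) ^ 2) = 0 ∧
      (2 * k = n → (w n k : ZMod 4) - (n.choose k : ZMod 4) ^ 2 = 0) := by
    intro k hk
    obtain ⟨l, rfl⟩ := Nat.exists_eq_add_of_le (Nat.lt_succ_iff.1 (mem_range.1 hk))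
    obtain ⟨u, c, ⟨u', rfl⟩, ⟨c', rfl⟩, e, h1, h2, -⟩ := w_spec k l
    have h4 : (4 : ZMod 4) = 0 := rfl
    rcases e with _ | e
    · refine ⟨?_, fun h => ?_⟩
      · rw [h1, h2]; push_cast
        linear_combination (u' - 2 * c' ^ 2 - 2 * c') * h4
      · exfalso
        have := Nat.two_dvd_centralBinom_of_one_le (n := k) (by omega)
        rw [Nat.centralBinom_eq_two_mul_choose, h, h1] at this
        omega
    · have : (w (k + l) k : ZMod 4) - ((k + l).choose k : ZMod 4) ^ 2 = 0 := by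
        rw [h1, h2]; push_cast
        linear_combination (4 ^ e * (2 * u' + 1) - (2 ^ e * (2 * c' + 1)) ^ 2) * h4
      exact ⟨by rw [this, mul_zero], fun _ => this⟩
  refine Finset.sum_involution (fun k _ => n - k) ?_ ?_ ?_ ?_
  · intro k hk
    have hk' := Nat.lt_succ_iff.1 (mem_range.1 hk)
    have : w n (n - k) = w n k := by rw [w, w, Nat.sub_sub_self hk', mul_comm]
    rw [this, Nat.choose_symm hk', ← two_mul]; exact (key k hk).1
  · intro k hk h1 h2
    have hk' := Nat.lt_succ_iff.1 (mem_range.1 hk)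
    exact h1 ((key k hk).2 (by omega))
  · intro k hk; simp only [mem_range]; omega
  · intro k hk
    have hk' := Nat.lt_succ_iff.1 (mem_range.1 hk)
    omega

theorem main (n : ℕ) (hn : 1 ≤ n) : ∃ b : ℕ,
    ∑ k ∈ range (n + 1), t k * t (n - k) = (2 * n - 1) * (3 * n).choose n * (8 * b) ∧
      (Odd b ↔ ∃ j, n = 2 ^ j) := by
  obtain ⟨a, ha⟩ : (2 * n - 1) * (3 * n).choose n ∣ ∑ k ∈ range (n + 1), t k * t (n - k) := by
    refine dvd_sum fun k hk => ?_
    obtain ⟨l, rfl⟩ := Nat.exists_eq_add_of_le (Nat.lt_succ_iff.1 (mem_range.1 hk))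
    rw [add_tsub_cancel_left]; exact term_dvd k l hn
  have hW : ∑ k ∈ range (n + 1), t k * t (n - k) = 4 ^ s n * ∑ k ∈ range (n + 1), w n k := by
    rw [mul_sum]
    refine sum_congr rfl fun k hk => ?_
    obtain ⟨l, rfl⟩ := Nat.exists_eq_add_of_le (Nat.lt_succ_iff.1 (mem_range.1 hk))
    obtain ⟨u, c, -, -, e, -, -, h⟩ := w_spec k l
    rw [add_tsub_cancel_left, h]
  have hm := (ZMod.natCast_eq_natCast_iff' _ _ _).1 (W_mod n hn)
  obtain ⟨W, hWd⟩ : ∃ W, W = ∑ k ∈ range (n + 1), w n k := ⟨_, rfl⟩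
  rw [← hWd] at hW hm
  have pos : 0 < ∑ k ∈ range (n + 1), t k * t (n - k) :=
    sum_pos (fun k _ => Nat.mul_pos (t_pos _) (t_pos _)) (by simp)
  have a0 : a ≠ 0 := by rintro rfl; omega
  have W0 : W ≠ 0 := by rintro rfl; omega
  have c0 : (3 * n).choose n ≠ 0 := (Nat.choose_pos (by omega)).ne'
  have e1 : a.factorization 2 = s (3 * n) + W.factorization 2 := by
    have h := congrArg (fun m => m.factorization 2) (ha.symm.trans hW)
    rw [mul_assoc, fac_mul3 _ _ _ _ (by omega) c0 a0, Nat.factorization_mul (by positivity) W0,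
      Nat.factorization_eq_zero_of_not_dvd (n := 2 * n - 1) (by omega), Finsupp.add_apply,
      show 4 ^ s n = 2 ^ (2 * s n) by rw [pow_mul]; norm_num, Nat.prime_two.factorization_pow,
      Finsupp.single_eq_same] at h
    have := v2_c n
    omega
  obtain ⟨c, ⟨c', hc'⟩, h3⟩ := odd_part _ (Nat.choose_pos (show n ≤ n + n by omega)).ne'
  have h4 := v2_ch n n
  rw [← two_mul] at h3 h4
  rw [s_even] at h4
  rw [show ((2 * n).choose n).factorization 2 = s n by omega] at h3
  obtain ⟨u, ou, hu⟩ := odd_part a a0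
  have d1 := Nat.prime_two.pow_dvd_iff_le_factorization (k := 1) W0
  have d2 := Nat.prime_two.pow_dvd_iff_le_factorization (k := 2) W0
  by_cases h1 : s n = 1
  · obtain ⟨j, hj⟩ := (s_one_iff n).1 h1
    have h5 : s (3 * n) = 2 := by rw [hj, s_three]
    rw [h1] at h3
    have : W.factorization 2 = 1 := by
      have := d1.1 (by omega)
      have := mt d2.2 (by omega)
      omega
    rw [e1, h5, this] at hu
    exact ⟨u, by rw [ha, hu]; norm_num, ⟨fun _ => ⟨j, hj⟩, fun _ => ou⟩⟩
  · have h5 := s_three_ge n hn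
    have h6 := s_pos n hn
    obtain ⟨r, hr⟩ : ∃ r, s n = r + 2 := ⟨s n - 2, by omega⟩
    rw [hr, pow_add, mul_assoc, mul_left_comm] at h3
    have := d2.1 (by omega)
    obtain ⟨r', hr'⟩ : ∃ r', a.factorization 2 = r' + 4 := ⟨a.factorization 2 - 4, by omega⟩
    rw [hr'] at hu
    refine ⟨2 * (2 ^ r' * u), by rw [ha, hu]; ring, ?_⟩
    rw [← s_one_iff]; simp [h1]

end Pool.Agent.H.MP_49e939_nt
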